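import Pool.Agent.Lib.MP_270b52_co.MJoin

set_option autoImplicit false

namespace Pool.Agent.Results.MP_270b52_co.LogFactor

open Pool.Agent.Lib.MP_270b52_co.MD

/-- In the range `2 s + K ≤ r ≤ s² / (K ln s)` the double-counting bound is the truth up to the
factor `ln C(r,s) + 6`. -/
theorem result :
    ∃ K : ℕ, ∀ r s : ℕ, 2 ≤ s → K ≤ s → 2 * s + K ≤ r →
      (K : ℝ) * r * Real.log s ≤ (s : ℝ) ^ 2 →
      B r s ≤ m r s ∧ (m r s : ℝ) ≤ (Real.log (r.choose s) + 6) * B r s := by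
  obtain ⟨K, hK⟩ := joined
  exact ⟨K, fun r s hs h1 h2 h3 =>
    ⟨(hK r s hs (by omega)).1, (hK r s hs (by omega)).2.2 h1 h2 h3⟩⟩

end Pool.Agent.Results.MP_270b52_co.LogFactor
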