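import Pool.Agent.Lib.MP_270b52_co.Rs.H

set_option autoImplicit false

namespace Pool.Agent.Results.MP_270b52_co.NearHalf

open Pool.Agent.Lib.MP_270b52_co.MD

/-- For `r = 2 s - 1 + R` with `K R² ln s ≤ s` the double-counting bound is the truth up to the
factor `K (R + 1) ln (R + 2)`, which does not depend on `s`. -/
theorem result :
    ∃ K : ℕ, ∀ r s R : ℕ, 2 ≤ s → r + 1 = 2 * s + R → (K : ℝ) * R ^ 2 * Real.log s ≤ s →
      B r s ≤ m r s ∧ (m r s : ℝ) ≤ K * (R + 1) * Real.log (R + 2) * B r s :=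
  Pool.Agent.Lib.MP_270b52_co.Rs.near

end Pool.Agent.Results.MP_270b52_co.NearHalf
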