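import Pool.Agent.Lib.MP_270b52_co.Kh.F

set_option autoImplicit false

namespace Pool.Agent.Results.MP_270b52_co.Uniform

open Pool.Agent.Lib.MP_270b52_co.MD

/-- `m(r,s)` equals `s B(r,s)` up to a factor polynomial in `1 + s² / r`, for every `r ≥ 2 s - 1`. -/
theorem result :
    ∃ K : ℕ, ∀ r s : ℕ, 2 ≤ s → 2 * s - 1 ≤ r →
      s * B r s ≤ K * (1 + (s : ℝ) ^ 2 / r) * m r s ∧
        (m r s : ℝ) ≤ K * (1 + (s : ℝ) ^ 2 / r) ^ K * (s * B r s) :=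
  Pool.Agent.Lib.MP_270b52_co.Kh.uniform

end Pool.Agent.Results.MP_270b52_co.Uniform
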